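import Pool.Agent.H65.CRZ.TD
import Pool.Agent.H3.CV.RL
import Pool.Agent.H3.CV.RR
import Pool.Agent.H97.CV.SR
import Pool.Agent.H97.CV.BG
import Pool.Agent.H86.CV.CR

/-!
# Critical zeros, row SS: short relations
-/

set_option autoImplicit false

open NumberField NumberField.InfinitePlace Complex Filter Topology

namespace Pool.Agent.H61.CRZ

open Pool.Agent.H28.RC Pool.Agent.H25.HK Pool.Agent.H37.CV Pool.Agent.H65.CRZ

/-- an ideal of the ring of integers of a field of degree one is generated by its norm -/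
lemma eq_span_of_one {F : Type} [Field F] [NumberField F] (h1 : Module.finrank ℚ F = 1)
    (y : Ideal (𝓞 F)) (hy : y ≠ ⊥) :
    y = Ideal.span {((Ideal.absNorm y : ℕ) : 𝓞 F)} := by
  have hn : Ideal.absNorm y ≠ 0 := by
    rw [Ne, Ideal.absNorm_eq_zero_iff]
    exact hy
  have hmem := Ideal.absNorm_mem y
  have hdvd : y ∣ Ideal.span {((Ideal.absNorm y : ℕ) : 𝓞 F)} := by
    rw [Ideal.dvd_span_singleton]
    exact hmem
  obtain ⟨J, hJ⟩ := hdvd
  have hspan : Ideal.absNorm (Ideal.span {((Ideal.absNorm y : ℕ) : 𝓞 F)}) = Ideal.absNorm y := by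
    rw [Ideal.absNorm_span_singleton]
    have h2 : (Algebra.norm ℤ) ((Ideal.absNorm y : ℕ) : 𝓞 F) = (Ideal.absNorm y : ℤ) := by
      have h3 : ((Ideal.absNorm y : ℕ) : 𝓞 F) = algebraMap ℤ (𝓞 F) (Ideal.absNorm y : ℤ) := by
        simp
      rw [h3, Algebra.norm_algebraMap, RingOfIntegers.rank, h1, pow_one]
    rw [h2, Int.natAbs_natCast]
  have hJ1 : Ideal.absNorm J = 1 := by
    have h4 : Ideal.absNorm y * Ideal.absNorm J = Ideal.absNorm y * 1 := by
      rw [← map_mul, ← hJ, hspan, mul_one]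
    exact Nat.eq_of_mul_eq_mul_left (Nat.pos_of_ne_zero hn) h4
  rw [Ideal.absNorm_eq_one_iff] at hJ1
  rw [hJ, hJ1, Ideal.mul_top]

open scoped Classical in
lemma finrank_Kp (K : Type) [Field K] [NumberField K] [IsCMField K]
    (h2 : Module.finrank ℚ K = 2) : Module.finrank ℚ (Kp K) = 1 := by
  have h3 : Module.finrank ℚ (Kp K) * Module.finrank (Kp K) K = Module.finrank ℚ K :=
    Module.finrank_mul_finrank ℚ (Kp K) K
  have h4 : Module.finrank (Kp K) K = 2 := Algebra.IsQuadraticExtension.finrank_eq_two _ _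
  rw [h4, h2] at h3
  omega

theorem pf_SS (h1 : T_CQ) : T_SS := by
  classical
  intro K _ _ _ hK
  obtain ⟨c₁, hc₁, hRL⟩ := Pool.Agent.H3.CV.pf_RL
    (Pool.Agent.H97.CV.pf_SR Pool.Agent.H97.CV.pf_BG Pool.Agent.H86.CV.pf_CR)
    Pool.Agent.H3.CV.pf_RR K
  obtain ⟨-, c₂, -, hq2⟩ := h1 K hK
  rw [hK] at hRL
  have hF := finrank_Kp K hK
  refine ⟨min c₁ (1 / 8), 0, lt_min hc₁ (by norm_num), fun q hq _ => ⟨?_, ?_⟩⟩
  · intro p hp hlt
    have hqpos : (0 : ℝ) < q := by exact_mod_cast hq.pos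
    have hlt' : nm p.1 * nm p.2 * (q : ℝ) ^ 2 < c₁ * nm (qi K q) ^ 2 :=
      hlt.trans_le (mul_le_mul_of_nonneg_right (min_le_left _ _) (sq_nonneg _))
    obtain ⟨y₁, y₂, ⟨hy1, hy2, e1, e2, n1, n2⟩, hcg⟩ := hRL q hq (qi K q) le_rfl p hp hlt'
    have hCg := hcg rfl
    by_cases hN : Ideal.absNorm y₁ = Ideal.absNorm y₂
    · have hyy : y₁ = y₂ := by
        rw [eq_span_of_one hF y₁ hy1, eq_span_of_one hF y₂ hy2, hN]
      have h12 : p.1 = p.2 := by rw [e1, e2, hyy]
      have htop := hp.2.2.1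
      rw [← h12, sup_idem] at htop
      have : p = (p.1, p.2) := rfl
      rw [this, ← h12, htop]
    · exfalso
      set a := Ideal.absNorm y₁ with ha
      set b := Ideal.absNorm y₂ with hb
      have ha0 : 0 < a := Nat.pos_of_ne_zero (by
        rw [ha, Ne, Ideal.absNorm_eq_zero_iff]
        exact hy1)
      have hb0 : 0 < b := Nat.pos_of_ne_zero (by
        rw [hb, Ne, Ideal.absNorm_eq_zero_iff]
        exact hy2)
      have hab : q ≤ a + b := by
        rcases hCg with h | h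
        · have hne : (a : ℤ) - b ≠ 0 := by omega
          have := Int.le_of_dvd (abs_pos.2 hne) ((dvd_abs _ _).2 h)
          have h5 : |(a : ℤ) - b| ≤ a + b := by
            rw [abs_le]
            constructor <;> omega
          omega
        · have := Int.le_of_dvd (by omega) h
          omega
      have hab2 : q ≤ 2 * (a * b) := by
        have : a + b ≤ 2 * (a * b) := by nlinarith
        omega
      have hab3 : (q : ℝ) ≤ 2 * (a * b) := by exact_mod_cast hab2
      have hp1 : nm p.1 * nm p.2 = ((a : ℝ) * b) ^ 2 := by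
        rw [n1, n2]
        change ((a : ℝ)) ^ 2 * ((b : ℝ)) ^ 2 = _
        ring
      have h6 : nm p.1 * nm p.2 * (q : ℝ) ^ 2 < 1 / 8 * nm (qi K q) ^ 2 :=
        hlt.trans_le (mul_le_mul_of_nonneg_right (min_le_right _ _) (sq_nonneg _))
      rw [hp1, (hq2 q hq).2] at h6
      have h7 : (q : ℝ) ^ 2 ≤ 4 * ((a : ℝ) * b) ^ 2 := by
        have := pow_le_pow_left₀ hqpos.le hab3 2
        nlinarith
      have h8 : 0 < (q : ℝ) ^ 2 := by positivity
      nlinarith
  · intro d hd p hp hlt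
    have hlt' : nm p.1 * nm p.2 * (q : ℝ) ^ 2 < c₁ * nm d ^ 2 :=
      hlt.trans_le (mul_le_mul_of_nonneg_right (min_le_left _ _) (sq_nonneg _))
    obtain ⟨y₁, y₂, hy, -⟩ := hRL q hq d hd p hp hlt'
    exact ⟨y₁, y₂, hy⟩

end Pool.Agent.H61.CRZ
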